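import Pool.Agent.Helper96.GU.St

set_option autoImplicit false

/-!
Project GU (MP_2c90c1_al), module RHO: the cocycle which replaces the free edge of a cell by the
complementary path.
-/

namespace Pool.Agent.Helper12.GU

open Pool.Agent.Helper96.UT hiding StTOP TopV TopE tht Bd VC EC
open Pool.Agent.Helper96.GU

section aux

variable {α : Type} {Ω : Type} [MulAction (FreeGroup α) Ω]

private theorem conj_Nc (Z : Cyc α) (E : Set (Ω × α)) (C : Finset Ω) (x : Ω) (z : α × Bool)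
    (hz : ed x z ∈ E) {g : FreeGroup α} (hg : g ∈ Nc Z E C (act x (lt z))) :
    lt z * g * (lt z)⁻¹ ∈ Nc Z E C x := by
  unfold Nc at hg
  induction hg using Subgroup.closure_induction with
  | mem y hy =>
    obtain ⟨p, hp, hC, rfl⟩ := hy
    refine Subgroup.subset_closure ⟨z :: p, ⟨hz, hp⟩, ?_, ?_⟩
    · rw [mk_cons, act_mul]
      exact hC
    · rw [mk_cons]
      group
  | one =>
    rw [mul_one, mul_inv_cancel]
    exact Subgroup.one_mem _
  | mul a b _ _ ha hb =>
    have e : lt z * (a * b) * (lt z)⁻¹ = (lt z * a * (lt z)⁻¹) * (lt z * b * (lt z)⁻¹) := by group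
    rw [e]
    exact Subgroup.mul_mem _ ha hb
  | inv a _ ha =>
    have e : lt z * a⁻¹ * (lt z)⁻¹ = (lt z * a * (lt z)⁻¹)⁻¹ := by group
    rw [e]
    exact Subgroup.inv_mem _ ha

private theorem loop_Nc (Z : Cyc α) (E : Set (Ω × α)) (C : Finset Ω) (hK : Cpx Z E C) (u : Ω)
    (hu : u ∈ C) (j : ℤ) :
    (pre Z.c j)⁻¹ * Z.s * pre Z.c j ∈ Nc Z E C (act u (pre Z.c j)) := by
  have hn : (0 : ℤ) < Z.n := by exact_mod_cast Z.pos
  obtain ⟨r, hr⟩ : ∃ r : ℕ, (r : ℤ) = j % Z.n := ⟨(j % Z.n).toNat, Int.toNat_of_nonneg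
    (Int.emod_nonneg _ hn.ne')⟩
  have e : j = (r : ℤ) + (j / Z.n) * Z.n := by
    rw [hr]
    have := Int.emod_add_mul_ediv j Z.n
    linarith [mul_comm (j / (Z.n : ℤ)) (Z.n : ℤ)]
  rw [e, act_pre_per (hK.fix u hu), Z.pre_add_mul]
  have e2 : (Z.s ^ (j / (Z.n : ℤ)) * pre Z.c r)⁻¹ * Z.s * (Z.s ^ (j / (Z.n : ℤ)) * pre Z.c r) =
      (pre Z.c r)⁻¹ * Z.s * pre Z.c r := by group
  rw [e2]
  have h0 : InE E u (seg Z.c 0 r) := by
    have h1 := InE_cell Z u 0 r
    rw [pre_zero, act_one] at h1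
    exact InE_mono (hK.sub u hu) h1
  have h1 : FreeGroup.mk (seg Z.c 0 r) = pre Z.c r := by
    rw [mk_seg, pre_zero, inv_one, one_mul, zero_add]
  have h2 := InE_invRev h0
  rw [h1] at h2
  refine Subgroup.subset_closure ⟨FreeGroup.invRev (seg Z.c 0 r), h2, ?_, ?_⟩
  · rw [mk_invRev, h1, act_inv_eq rfl]
    exact hu
  · rw [mk_invRev, h1, inv_inv]

end aux

theorem tRHO : StFRE → StRHO := by
  classical
  intro hFRE α Z Ω _ E C hK u hu k hS
  have hfre := hFRE α Z Ω C u k hS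
  have hn : 0 < Z.n := Z.pos
  obtain ⟨m, hm⟩ : ∃ m : ℕ, Z.n = m + 1 := ⟨Z.n - 1, by omega⟩
  have hmZ : (Z.n : ℤ) = m + 1 := by rw [hm]; push_cast; ring
  set y := Z.c k with hy
  set x0 := act u (pre Z.c k) with hx0
  set e0 := ed x0 y with he0
  set E' := E \ {e0} with hE'
  have hx1 : act x0 (lt y) = act u (pre Z.c (k + 1)) := by rw [hx0, hy, act_pre_succ]
  -- periodicity
  have hpk : pre Z.c (k + 1 - Z.n) = Z.s⁻¹ * pre Z.c (k + 1) := by
    have h := Z.pre_add (k + 1 - Z.n)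
    rw [sub_add_cancel] at h
    rw [h, inv_mul_cancel_left]
  have hxm : act u (pre Z.c (k + 1 - Z.n)) = act u (pre Z.c (k + 1)) := by
    have h := act_pre_per (hK.fix u hu) (k + 1) (-1)
    have e : (k + 1 + -1 * (Z.n : ℤ)) = k + 1 - Z.n := by ring
    rwa [e] at h
  set R : FreeGroup α := (pre Z.c k)⁻¹ * pre Z.c (k + 1 - Z.n) with hR
  -- pieces of the boundary path of `u` outside `e0`
  have hseg : ∀ (i : ℤ) (l : ℕ), (∀ t : ℕ, t < l → ¬ (Z.n : ℤ) ∣ i + t - k) →
      InE E' (act u (pre Z.c i)) (seg Z.c i l) := by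
    intro i l h
    rw [InE_seg]
    intro t ht
    refine ⟨hK.sub u hu ⟨i + t, rfl⟩, ?_⟩
    intro hmem
    exact h t ht (hfre u hu (i + t) hmem).1
  have hlong1 : InE E' (act u (pre Z.c (k + 1))) (seg Z.c (k + 1) m) := by
    refine hseg _ _ fun t ht hd => ?_
    have e : k + 1 + (t : ℤ) - k = ((t + 1 : ℕ) : ℤ) := by push_cast; ring
    rw [e, Int.natCast_dvd_natCast] at hd
    have := Nat.le_of_dvd (by omega) hd
    omega
  have hlong2 : InE E' (act u (pre Z.c (k + 1 - Z.n))) (seg Z.c (k + 1 - Z.n) m) := by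
    refine hseg _ _ fun t ht hd => ?_
    have e : k + 1 - (Z.n : ℤ) + (t : ℤ) - k = ((t + 1 : ℕ) : ℤ) - Z.n := by push_cast; ring
    rw [e] at hd
    have hd2 : (Z.n : ℤ) ∣ ((t + 1 : ℕ) : ℤ) := by
      have := dvd_add hd (dvd_refl (Z.n : ℤ))
      rwa [sub_add_cancel] at this
    rw [Int.natCast_dvd_natCast] at hd2
    have := Nat.le_of_dvd (by omega) hd2
    omega
  have hmk2 : FreeGroup.mk (seg Z.c (k + 1 - Z.n) m) = R⁻¹ := by
    rw [mk_seg, hR, mul_inv_rev, inv_inv]
    congr 2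
    rw [hmZ]
    ring
  -- the cocycle
  set κ : Ω × α → FreeGroup α := fun e => if e = e0 then (if y.2 then R else R⁻¹) else
    lt (e.2, true) with hκ
  have hκE : ∀ e ∈ E', κ e = lt (e.2, true) := by
    intro e he
    have : e ≠ e0 := he.2
    simp only [hκ, if_neg this]
  have hκ0 : κ e0 = if y.2 then R else R⁻¹ := by simp only [hκ, if_true]
  have h2 : ∀ (x : Ω) (q : List (α × Bool)), InE E' x q →
      Cc κ x (FreeGroup.mk q) = FreeGroup.mk q := by
    intro x q hq
    rw [Cc_mk]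
    exact Pm_eq_mk κ E' hκE hq
  have hρy : Cc κ x0 (lt y) = R := by
    rw [Cc_lt, ← he0, hκ0]
    cases y.2 <;> simp
  have hρby : Cc κ (act x0 (lt y)) (lt (bar y)) = R⁻¹ := by
    rw [Cc_lt, ed_bar, ← he0, hκ0]
    have : (bar y).2 = !y.2 := rfl
    rw [this]
    cases y.2 <;> simp
  -- one step
  have hstep : ∀ (x : Ω) (z : α × Bool), ed x z ∈ E → ∃ p : List (α × Bool), InE E' x p ∧
      FreeGroup.mk p = Cc κ x (lt z) ∧ act x (FreeGroup.mk p) = act x (lt z) ∧
      lt z * (Cc κ x (lt z))⁻¹ ∈ Nc Z E C x := by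
    intro x z hz
    by_cases hez : ed x z = e0
    · rcases ed_eq (he0.symm.trans hez.symm) with ⟨rfl, rfl⟩ | ⟨rfl, rfl⟩
      · have h3 := InE_invRev hlong2
        have hend : act (act u (pre Z.c (k + 1 - Z.n))) (FreeGroup.mk (seg Z.c (k + 1 - Z.n) m)) =
            x0 := by
          rw [hmk2, ← act_mul, hR, hx0]
          congr 1
          group
        rw [hend] at h3
        refine ⟨_, h3, ?_, ?_, ?_⟩
        · rw [mk_invRev, hmk2, inv_inv, hρy]
        · rw [mk_invRev, hmk2, inv_inv, hx1, ← hxm, hx0, ← act_mul, hR, mul_inv_cancel_left]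
        · rw [hρy]
          have h4 := loop_Nc Z E C hK u hu k
          have e : lt y * R⁻¹ = (pre Z.c k)⁻¹ * Z.s * pre Z.c k := by
            rw [hR, hpk, pre_succ, ← hy]
            group
          rw [e]
          exact h4
      · refine ⟨seg Z.c (k + 1 - Z.n) m, ?_, ?_, ?_, ?_⟩
        · rw [hx1, ← hxm]
          exact hlong2
        · rw [hmk2, hρby]
        · rw [hmk2, lt_bar, act_inv_eq rfl, hx1, ← hxm, ← act_mul, hR, hx0]
          congr 1
          group
        · rw [hρby, lt_bar, inv_inv]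
          have h4 := Subgroup.inv_mem _ (loop_Nc Z E C hK u hu (k + 1))
          have e : (lt y)⁻¹ * R = ((pre Z.c (k + 1))⁻¹ * Z.s * pre Z.c (k + 1))⁻¹ := by
            rw [hR, hpk, pre_succ, ← hy]
            group
          rw [e, hx1]
          exact h4
    · have hin : InE E' x [z] := ⟨⟨hz, hez⟩, trivial⟩
      have h3 : Cc κ x (lt z) = lt z := h2 x [z] hin
      refine ⟨[z], hin, h3.symm, rfl, ?_⟩
      rw [h3, mul_inv_cancel]
      exact Subgroup.one_mem _
  refine ⟨Cc κ, fun x g h => Cc_mul κ x g h, h2, ?_, ?_, ?_, ?_⟩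
  · -- other cells
    intro u' hu' hne
    have h3 : InE E' u' (seg Z.c 0 Z.n) := by
      have h4 : InE E' (act u' (pre Z.c 0)) (seg Z.c 0 Z.n) := by
        rw [InE_seg]
        intro t _
        refine ⟨hK.sub u' hu' ⟨0 + t, rfl⟩, ?_⟩
        intro hmem
        exact hne (hfre u' hu' (0 + t) hmem).2
      rwa [pre_zero, act_one] at h4
    have h5 := h2 u' _ h3
    rw [mk_seg_s] at h5
    exact h5
  · -- the cell `u`
    have hmul : Z.s * pre Z.c k = pre Z.c k * FreeGroup.mk (seg Z.c k Z.n) := by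
      rw [mk_seg, Z.pre_add, mul_inv_cancel_left]
    have h3 : Cc κ x0 (FreeGroup.mk (seg Z.c k Z.n)) = 1 := by
      rw [hm, seg_cons, mk_cons, Cc_mul, ← hy, hρy, hx1, h2 _ _ hlong1, mk_seg, hR, hpk]
      have e : k + 1 + (m : ℤ) = k + Z.n := by rw [hmZ]; ring
      rw [e, Z.pre_add]
      group
    have h4 := Cc_mul κ u Z.s (pre Z.c k)
    rw [hmul, Cc_mul, ← hx0, h3, mul_one, hK.fix u hu] at h4
    exact (mul_eq_right.1 h4.symm)
  · -- paths
    intro x q
    induction q generalizing x with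
    | nil =>
      intro _
      exact ⟨[], trivial, rfl, rfl⟩
    | cons z q ih =>
      intro hq
      obtain ⟨q', h3, h4, h5⟩ := ih (act x (lt z)) hq.2
      obtain ⟨p, h6, h7, h8, _⟩ := hstep x z hq.1
      refine ⟨p ++ q', ?_, ?_, ?_⟩
      · rw [InE_append, h8]
        exact ⟨h6, h3⟩
      · rw [mk_append, h7, h4, mk_cons]
        exact (Cc_mul κ x _ _).symm
      · rw [mk_append, act_mul, h8, h5, mk_cons, act_mul]
  · -- the normal closure
    intro x q
    induction q generalizing x with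
    | nil =>
      intro _
      have : FreeGroup.mk ([] : List (α × Bool)) * (Cc κ x (FreeGroup.mk []))⁻¹ = 1 := by
        rw [mk_nil, Cc_one, inv_one, mul_one]
      rw [this]
      exact Subgroup.one_mem _
    | cons z q ih =>
      intro hq
      have h3 := conj_Nc Z E C x z hq.1 (ih (act x (lt z)) hq.2)
      obtain ⟨_, _, _, _, h4⟩ := hstep x z hq.1
      have h5 := Subgroup.mul_mem _ h3 h4
      rw [mk_cons, Cc_mul]
      convert h5 using 1
      group

end Pool.Agent.Helper12.GU
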